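import Pool.Agent.H68.QC.Targets
import Pool.Agent.H70.OQ.NDV

/-!
MP_0f8dca_lc, board qc_modules, row FXU: the functions of a table with one special row.
-/

set_option autoImplicit false

namespace Pool.Agent.H55.QC

open Pool.Agent.H68.QC Pool.Agent.H70.OQ Pool.Agent.H70.RK Pool.Agent.H6.NB Finset

private theorem exists_ofFn {n : ℕ} {u : List Bool} (hu : u.length = n) :
    ∃ u' : Fin n → Bool, List.ofFn u' = u := by
  subst hu
  exact ⟨u.get, List.ofFn_get u⟩

private theorem head_ofFn {n : ℕ} (x : Fin (n + 1) → Bool) : (List.ofFn x).head? = some (x 0) := by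
  rw [List.ofFn_succ]
  rfl

private theorem spec_b (hMKX : T_MKX) (l n : ℕ) (H : Hid (Fin n → Bool) (Ys n) l)
    (b : (Fin n → Bool) → Bool) (u : Fin n → Bool) :
    Special l (orc (nod n l) (mkX n l (nod n l) (sv b l H))) (List.ofFn u) ↔ b u = false :=
  Pool.Agent.H70.OQ.NDV.ndv l n _ b H (fun p => (hMKX n l (sv b l H)).1 p) u

private theorem spec_U (hMKX : T_MKX) (l n : ℕ) (H : Hid (Fin n → Bool) (Ys n) l)
    (x : Fin n → Bool) (u : List Bool) (hu : u.length = n) :
    Special l (orc (nod n l) (mkX n l (nod n l) (tabU l H x))) u ↔ u = List.ofFn x := by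
  obtain ⟨u', rfl⟩ := exists_ofFn hu
  have h := spec_b hMKX l n H (fun x' => !decide (x' = x)) u'
  unfold tabU
  rw [h]
  constructor
  · intro h
    have : u' = x := by simpa using h
    rw [this]
  · intro h
    have : u' = x := List.ofFn_injective h
    simp [this]

private theorem spec_T (hMKX : T_MKX) (l n : ℕ) (H : Hid (Fin n → Bool) (Ys n) l)
    (u : List Bool) (hu : u.length = n) :
    ¬ Special l (orc (nod n l) (mkX n l (nod n l) (tabT l H))) u := by
  obtain ⟨u', rfl⟩ := exists_ofFn hu
  unfold tabT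
  rw [spec_b hMKX l n H (fun _ => true) u']
  simp

private theorem mem_U (hMKX : T_MKX) (l n : ℕ) (H : Hid (Fin (n + 1) → Bool) (Ys (n + 1)) l)
    (x : Fin (n + 1) → Bool) :
    List.replicate (n + 1) false ∈
      hlang l (orc (nod (n + 1) l) (mkX (n + 1) l (nod (n + 1) l) (tabU l H x))) ↔
      x 0 = true := by
  unfold hlang
  simp only [Set.mem_ofPred_eq, List.length_replicate]
  constructor
  · rintro ⟨u, hu, hh, h⟩
    rw [(spec_U hMKX l (n + 1) H x u hu).1 h, head_ofFn] at hh
    exact Option.some.inj hh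
  · intro h
    refine ⟨List.ofFn x, List.length_ofFn, ?_, ?_⟩
    · rw [head_ofFn, h]
    · exact (spec_U hMKX l (n + 1) H x _ List.length_ofFn).2 rfl

open Classical in
theorem pf_FXU (hMKX : T_MKX) : T_FXU := by
  intro l n H x
  have hm := mem_U hMKX l n H x
  refine ⟨?_, ?_, ?_⟩
  · unfold fX
    rw [if_pos]
    · congr 1
      rw [Bool.eq_iff_iff, decide_eq_true_iff]
      exact hm
    · refine ⟨List.ofFn x, ⟨List.length_ofFn, (spec_U hMKX l (n + 1) H x _ List.length_ofFn).2 rfl⟩,
        fun u hu => ?_⟩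
      exact (spec_U hMKX l (n + 1) H x u hu.1).1 hu.2
  · unfold fR
    rw [if_pos]
    · congr 1
      rw [Bool.eq_iff_iff, decide_eq_true_iff, hm]
      cases x 0 <;> simp
    · intro u u' hu hu' h h'
      rw [(spec_U hMKX l (n + 1) H x u hu).1 h, (spec_U hMKX l (n + 1) H x u' hu').1 h']
  · unfold fR
    rw [if_pos]
    · congr 1
      rw [decide_eq_true_iff]
      rintro ⟨u, hu, -, h⟩
      rw [List.length_replicate] at hu
      exact spec_T hMKX l (n + 1) H u hu h
    · intro u u' hu hu' h h'
      exact absurd h (spec_T hMKX l (n + 1) H u hu)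

end Pool.Agent.H55.QC
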